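import Pool.Agent.W516.MTZ.Stm
import Pool.Agent.W437.HD.Fixed

/-!
# The Zariski closure of a group of matrices stable under the automorphisms of the complex numbers
-/

set_option autoImplicit false

namespace W410.MTZ

open Matrix MvPolynomial Pool.Agent.W516.MTZ Pool.Agent.W437.HD

variable {m : Type} [Fintype m] [DecidableEq m]

/-- vanishing on a set of invertible matrices -/
def Van (G : Subgroup (Matrix m m ℂ)ˣ) (F : MvPolynomial (m × m) ℂ) : Prop :=
  ∀ g ∈ G, aeval (crd (g : Matrix m m ℂ)) F = 0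

theorem aeval_sum_eq (x : m × m → ℂ) (F : MvPolynomial (m × m) ℂ) :
    aeval x F = ∑ d ∈ F.support, coeff d F * ∏ i, x i ^ d i := by
  have h := MvPolynomial.eval_eq' x F
  rw [← h]
  rfl

/-- step 1 -/
theorem rational (G : Subgroup (Matrix m m ℂ)ˣ)
    (hG : ∀ (σ : ℂ ≃+* ℂ), ∀ g ∈ G, ∀ g' : (Matrix m m ℂ)ˣ,
      (g' : Matrix m m ℂ) = (g : Matrix m m ℂ).map σ → g' ∈ G)
    (u : (Matrix m m ℂ)ˣ) (hu : ∀ f : MvPolynomial (m × m) ℚ,
      (∀ g ∈ G, aeval (crd (g : Matrix m m ℂ)) f = 0) → aeval (crd (u : Matrix m m ℂ)) f = 0)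
    (F : MvPolynomial (m × m) ℂ) (hF : Van G F) : aeval (crd (u : Matrix m m ℂ)) F = 0 := by
  classical
  let B : Type := {d : m × m →₀ ℕ // d ∈ F.support}
  let mon : B → (m × m → ℂ) → ℂ := fun d x => ∏ i, x i ^ d.1 i
  let C : Submodule ℂ (B → ℂ) :=
    { carrier := {c | ∀ g ∈ G, ∑ b, c b * mon b (crd (g : Matrix m m ℂ)) = 0}
      add_mem' := fun {a b} ha hb g hg => by
        have h1 := ha g hg
        have h2 := hb g hg
        simp only [Pi.add_apply, add_mul, Finset.sum_add_distrib]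
        rw [h1, h2, add_zero]
      zero_mem' := fun g hg => by simp
      smul_mem' := fun r a ha g hg => by
        have h1 := ha g hg
        simp only [Pi.smul_apply, smul_eq_mul, mul_assoc]
        rw [← Finset.mul_sum, h1, mul_zero] }
  have hC : ∀ (σ : ℂ ≃+* ℂ), ∀ v ∈ C, (fun i => σ (v i)) ∈ C := by
    intro σ v hv g hg
    -- the unit with the matrix `g.map σ⁻¹`
    let g1 : (Matrix m m ℂ)ˣ := Units.map (RingHom.mapMatrix (σ.symm : ℂ →+* ℂ)).toMonoidHom g
    have hg1 : (g1 : Matrix m m ℂ) = (g : Matrix m m ℂ).map σ.symm := rfl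
    have h1 := hv g1 (hG σ.symm g hg g1 hg1)
    have h2 := congrArg σ h1
    rw [map_zero, map_sum] at h2
    refine Eq.trans (Finset.sum_congr rfl fun b _ => ?_) h2
    rw [map_mul]
    congr 1
    simp only [mon]
    rw [map_prod]
    refine Finset.prod_congr rfl fun i _ => ?_
    rw [map_pow]
    congr 1
    simp [crd, hg1]
  have hspan := span_rational C hC
  let v : B → ℂ := fun b => coeff b.1 F
  have hsum : ∀ x : m × m → ℂ, aeval x F = ∑ b, v b * mon b x := by
    intro x
    rw [aeval_sum_eq]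
    rw [← Finset.sum_coe_sort F.support (fun d => coeff d F * ∏ i, x i ^ d i)]
  have hv : v ∈ C := by
    intro g hg
    rw [← hsum]
    exact hF g hg
  rw [hspan] at hv
  rw [hsum]
  have key : ∀ w ∈ Submodule.span ℂ {w | w ∈ C ∧ ∃ u : B → ℚ, w = fun i => (u i : ℂ)},
      ∑ b, w b * mon b (crd (u : Matrix m m ℂ)) = 0 := by
    intro w hw
    induction hw using Submodule.span_induction with
    | mem w hw =>
      obtain ⟨hwC, q, rfl⟩ := hw
      let f : MvPolynomial (m × m) ℚ := ∑ b : B, monomial b.1 (q b)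
      have hf : ∀ x : m × m → ℂ, aeval x f = ∑ b, (q b : ℂ) * mon b x := by
        intro x
        simp only [f]
        rw [map_sum]
        refine Finset.sum_congr rfl fun b _ => ?_
        rw [aeval_monomial]
        congr 1
        simp only [mon]
        rw [Finsupp.prod_fintype]
        intro i
        exact pow_zero _
      rw [← hf]
      apply hu
      intro g hg
      rw [hf]
      exact hwC g hg
    | zero => simp
    | add a b _ _ ha hb =>
      simp only [Pi.add_apply, add_mul, Finset.sum_add_distrib]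
      rw [ha, hb, add_zero]
    | smul r a _ ha =>
      simp only [Pi.smul_apply, smul_eq_mul, mul_assoc]
      rw [← Finset.mul_sum, ha, mul_zero]
  exact key v hv

/-- left translation -/
noncomputable def Lt (u : Matrix m m ℂ) :
    MvPolynomial (m × m) ℂ →ₐ[ℂ] MvPolynomial (m × m) ℂ :=
  bind₁ fun k => ∑ l, C (u k.1 l) * X (l, k.2)

/-- right translation -/
noncomputable def Rt (u : Matrix m m ℂ) :
    MvPolynomial (m × m) ℂ →ₐ[ℂ] MvPolynomial (m × m) ℂ :=
  bind₁ fun k => ∑ l, C (u l k.2) * X (k.1, l)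

theorem aeval_Lt (u g : Matrix m m ℂ) (F : MvPolynomial (m × m) ℂ) :
    aeval (crd g) (Lt u F) = aeval (crd (u * g)) F := by
  unfold Lt
  rw [aeval_bind₁]
  congr 2
  funext k
  rw [map_sum]
  simp [crd, Matrix.mul_apply]

theorem aeval_Rt (u g : Matrix m m ℂ) (F : MvPolynomial (m × m) ℂ) :
    aeval (crd g) (Rt u F) = aeval (crd (g * u)) F := by
  unfold Rt
  rw [aeval_bind₁]
  congr 2
  funext k
  rw [map_sum]
  simp [crd, Matrix.mul_apply, mul_comm]

/-- membership in the closure -/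
def InG (G : Subgroup (Matrix m m ℂ)ˣ) (u : (Matrix m m ℂ)ˣ) : Prop :=
  ∀ F : MvPolynomial (m × m) ℂ, Van G F → aeval (crd (u : Matrix m m ℂ)) F = 0

theorem inG_left {G : Subgroup (Matrix m m ℂ)ˣ} {g u : (Matrix m m ℂ)ˣ} (hg : g ∈ G)
    (hu : InG G u) : InG G (g * u) := by
  intro F hF
  have h1 : Van G (Lt (g : Matrix m m ℂ) F) := by
    intro g' hg'
    rw [aeval_Lt, ← Units.val_mul]
    exact hF _ (G.mul_mem hg hg')
  have h2 := hu _ h1
  rw [aeval_Lt] at h2
  rw [Units.val_mul]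
  exact h2

theorem inG_mul {G : Subgroup (Matrix m m ℂ)ˣ} {u' u : (Matrix m m ℂ)ˣ} (hu' : InG G u')
    (hu : InG G u) : InG G (u' * u) := by
  intro F hF
  have h1 : Van G (Rt (u : Matrix m m ℂ) F) := by
    intro g hg
    rw [aeval_Rt, ← Units.val_mul]
    exact inG_left hg hu F hF
  have h2 := hu' _ h1
  rw [aeval_Rt] at h2
  rw [Units.val_mul]
  exact h2

theorem inG_of_mem {G : Subgroup (Matrix m m ℂ)ˣ} {g : (Matrix m m ℂ)ˣ} (hg : g ∈ G) :
    InG G g := fun _ hF => hF g hg

theorem inG_inv {G : Subgroup (Matrix m m ℂ)ˣ} {u : (Matrix m m ℂ)ˣ} (hu : InG G u) :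
    InG G u⁻¹ := by
  let J : ℕ → Ideal (MvPolynomial (m × m) ℂ) := fun n =>
    { carrier := {F | ∀ g ∈ G, aeval (crd ((u ^ n * g : (Matrix m m ℂ)ˣ) : Matrix m m ℂ)) F = 0}
      add_mem' := fun {a b} ha hb g hg => by
        rw [map_add, ha g hg, hb g hg, add_zero]
      zero_mem' := fun g hg => by rw [map_zero]
      smul_mem' := fun r a ha g hg => by
        rw [smul_eq_mul, map_mul, ha g hg, mul_zero] }
  have h01 : ∀ F, F ∈ J 0 → F ∈ J 1 := by
    intro F hF g hg
    rw [pow_one]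
    refine inG_mul hu (inG_of_mem hg) F fun g' hg' => ?_
    have := hF g' hg'
    rwa [pow_zero, one_mul] at this
  have hmono : ∀ n, J n ≤ J (n + 1) := by
    intro n F hF g hg
    have h1 : Lt ((u ^ n : (Matrix m m ℂ)ˣ) : Matrix m m ℂ) F ∈ J 0 := by
      intro g' hg'
      rw [aeval_Lt, pow_zero, one_mul, ← Units.val_mul]
      exact hF g' hg'
    have h2 := h01 _ h1 g hg
    rw [aeval_Lt, ← Units.val_mul, pow_one, ← mul_assoc, ← pow_succ] at h2
    exact h2
  let Jo : ℕ →o Ideal (MvPolynomial (m × m) ℂ) := ⟨J, monotone_nat_of_le_succ hmono⟩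
  have hN : IsNoetherian (MvPolynomial (m × m) ℂ) (MvPolynomial (m × m) ℂ) :=
    inferInstanceAs (IsNoetherianRing (MvPolynomial (m × m) ℂ))
  obtain ⟨n, hn⟩ := monotone_stabilizes_iff_noetherian.2 hN Jo
  have hn1 : J n = J (n + 1) := hn (n + 1) (Nat.le_succ n)
  have h10 : ∀ F, F ∈ J 1 → F ∈ J 0 := by
    intro F hF
    have h1 : Lt (((u ^ n)⁻¹ : (Matrix m m ℂ)ˣ) : Matrix m m ℂ) F ∈ J (n + 1) := by
      intro g hg
      rw [aeval_Lt, ← Units.val_mul, pow_succ, mul_assoc, inv_mul_cancel_left]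
      have := hF g hg
      rwa [pow_one] at this
    rw [← hn1] at h1
    intro g hg
    have h2 := h1 g hg
    rw [aeval_Lt, ← Units.val_mul, inv_mul_cancel_left] at h2
    rw [pow_zero, one_mul]
    exact h2
  intro F hF
  have h1 : Lt ((u⁻¹ : (Matrix m m ℂ)ˣ) : Matrix m m ℂ) F ∈ J 1 := by
    intro g hg
    rw [aeval_Lt, ← Units.val_mul, pow_one, inv_mul_cancel_left]
    exact hF g hg
  have h2 := h10 _ h1 1 G.one_mem
  rw [aeval_Lt, ← Units.val_mul, pow_zero, one_mul, mul_one] at h2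
  exact h2

theorem T_CL : StCl := by
  intro m _ _ G hG
  refine ⟨{ carrier := {u | InG G u}
            mul_mem' := fun ha hb => inG_mul ha hb
            one_mem' := inG_of_mem G.one_mem
            inv_mem' := fun ha => inG_inv ha }, ?_⟩
  ext u
  constructor
  · intro hu f hf
    have h1 : ∀ x : m × m → ℂ, aeval x f = aeval x (MvPolynomial.map (algebraMap ℚ ℂ) f) := by
      intro x
      rw [MvPolynomial.aeval_map_algebraMap]
    rw [h1]
    apply hu
    intro g hg
    rw [← h1]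
    exact hf g hg
  · intro hu F hF
    exact rational G hG u hu F hF

end W410.MTZ
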